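import Mathlib
import Pool.Agent.Run7.h773.Family
import Pool.Agent.Run7.h12.FR.Frame
import Pool.Agent.Run7.h12.FR.Serret

/-!
# MP_f07be6_gt, Q2: the Frenet frame is longer than `2π μ(n)`

For every `n ≥ 4` and every nondegenerate closed curve `γ` in `ℝ^n` the length of the Frenet frame
satisfies `L(E) > 2π μ(n)`.

The definitions `frenet`, `curvature`, `frameLength` are in `Pool.Agent.Run7.h12.FR.Frame`;
`Pool.Agent.Run7.h12.FR.Serret` proves that they satisfy the structure equations
`e_i' = κ_i e_{i+1} - κ_{i-1} e_{i-1}` in arc length and that `κ_1, ..., κ_{n-1} > 0`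
(`structure_equation`, `curvature_pos`). The theorem holds with `μ(n) = 1` (proved in
`Pool.Agent.Run7.h773.Family`) by Fenchel's theorem (`Pool.Agent.Run7.h12.FR.Fenchel`) and
`κ_2 ≠ 0`.
-/

open scoped Topology
open Run7.h773 Pool.Agent.Run7.h12.FR

namespace Pool.Agent.Results.MP_f07be6_gt.FrameLength

/-- **Q2, positive answer.** For every `n ≥ 4` the least number `μ = μ(n) ≥ 1` such that every
neighbourhood of the `μ`-fold unit circle contains a nondegenerate closed curve exists, and every
nondegenerate closed curve in `ℝ^n` has a Frenet frame of length greater than `2π μ`. -/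
theorem result (n : ℕ) (hn : 4 ≤ n) :
    ∃ μ : ℕ, IsLeast {m : ℕ | 1 ≤ m ∧ ∀ U ∈ 𝓝 (circ n m), ∃ γ ∈ U, Nondegenerate γ} μ ∧
      ∀ γ : SmoothLoop n, Nondegenerate γ → 2 * Real.pi * (μ : ℝ) < frameLength γ := by
  refine ⟨1, ⟨⟨le_rfl, exists_nondegenerate_near n hn⟩, fun m hm => hm.1⟩, fun γ hγ => ?_⟩
  rw [Nat.cast_one, mul_one]
  exact two_pi_lt_frameLength hγ (by omega)

end Pool.Agent.Results.MP_f07be6_gt.FrameLength
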