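import Pool.Agent.Run7.h773.Family
/-!
For every `n ≥ 4` the circle of the first coordinate plane, traversed once, can be perturbed
(`C^∞`-small) into a nondegenerate closed curve of `ℝ^n`; so `μ(n) = 1`.
-/
open scoped Topology
open Run7.h773

namespace Pool.Agent.Results.MP_f07be6_gt.OnceSuffices

/-- `μ(n) = 1` for every `n ≥ 4`: the least `m ≥ 1` for which every `C^∞`-neighbourhood of the
`m` times traversed circle `circ n m` contains a nondegenerate closed curve is `1`. -/
theorem result (n : ℕ) (hn : 4 ≤ n) :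
    IsLeast {m : ℕ | 1 ≤ m ∧ ∀ U ∈ 𝓝 (circ n m), ∃ γ ∈ U, Nondegenerate γ} 1 :=
  ⟨⟨le_rfl, exists_nondegenerate_near n hn⟩, fun _ hm => hm.1⟩

end Pool.Agent.Results.MP_f07be6_gt.OnceSuffices
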